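import Pool.Agent.ZP3.Stmts

/-!
# Squad ZP3, row LVV: `a x + b y` close to 1 forces `x`, `y` tame
-/

set_option autoImplicit false
set_option linter.unusedSectionVars false
set_option linter.unusedVariables false

namespace Pool.Agent.ZP3.H83

open Pool.Agent.ZPT Pool.Agent.ZP3

variable {K : Type} [NormedField K] [CharZero K] [IsUltrametricDist K]

theorem nat_le (n : ℕ) : ‖(n : K)‖ ≤ 1 := IsUltrametricDist.norm_natCast_le_one K n

theorem add_lt {x y : K} {r : ℝ} (hx : ‖x‖ < r) (hy : ‖y‖ < r) : ‖x + y‖ < r :=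
  lt_of_le_of_lt (IsUltrametricDist.norm_add_le_max x y) (max_lt hx hy)

theorem sub_lt {x y : K} {r : ℝ} (hx : ‖x‖ < r) (hy : ‖y‖ < r) : ‖x - y‖ < r := by
  rw [sub_eq_add_neg]
  exact add_lt hx (by rwa [norm_neg])

/-- binomial expansion modulo `h ^ 3` -/
theorem expand {h : K} (hh : ‖h‖ ≤ 1) (s : ℕ) :
    ∃ R : K, ‖R‖ ≤ 1 ∧ (1 + h) ^ s = 1 + s * h + (s.choose 2 : ℕ) * h ^ 2 + R * h ^ 3 := by
  induction s with
  | zero => exact ⟨0, by simp, by simp⟩
  | succ s ih =>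
    obtain ⟨R, hR, e⟩ := ih
    refine ⟨(s.choose 2 : ℕ) + R + R * h, ?_, ?_⟩
    · refine le_trans (IsUltrametricDist.norm_add_le_max _ _) (max_le
        (le_trans (IsUltrametricDist.norm_add_le_max _ _) (max_le (nat_le _) hR)) ?_)
      rw [norm_mul]
      exact mul_le_one₀ hR (norm_nonneg _) hh
    · have h2 : (s + 1).choose 2 = s.choose 2 + s := by
        rw [Nat.choose_succ_succ' s 1, Nat.choose_one_right, add_comm]
      rw [pow_succ, e, h2]
      push_cast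
      ring

/-- the key step -/
theorem key {p : ℕ} (hp0 : 0 < p) {α β h : K} {s : ℕ} {t : ℝ}
    (ht0 : 0 < t) (ht1 : t < 1) (ht3 : (p : ℝ)⁻¹ < t ^ 3) (hth : t ≤ ‖h‖) (hh : ‖h‖ < 1)
    (hα : ‖α‖ = 1) (hβ : ‖β‖ = 1)
    (d0 : ‖α + β - 1‖ < 1 → ‖α + β - 1‖ ≤ (p : ℝ)⁻¹)
    (d1 : ‖α + β * s‖ < 1 → ‖α + β * s‖ ≤ (p : ℝ)⁻¹)
    (hsum : ‖α * (1 + h) + β * (1 + h) ^ s - 1‖ < t ^ 2) : False := by
  obtain ⟨R, hR, e⟩ := expand hh.le s
  set S := α * (1 + h) + β * (1 + h) ^ s - 1 with hS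
  set T0 := α + β - 1 with hT0
  set T1 := α + β * s with hT1
  set T2 := β * ((s.choose 2 : ℕ) : K) with hT2
  have hSe : S = T0 + T1 * h + T2 * h ^ 2 + β * R * h ^ 3 := by
    rw [hS, e, hT0, hT1, hT2]
    ring
  have hpos : 0 < ‖h‖ := lt_of_lt_of_le ht0 hth
  have t2 : t ^ 2 ≤ ‖h‖ ^ 2 := pow_le_pow_left₀ ht0.le hth 2
  have t3 : t ^ 3 ≤ ‖h‖ ^ 3 := pow_le_pow_left₀ ht0.le hth 3
  have n21 : ‖h‖ ^ 2 < ‖h‖ := by nlinarith
  have n32 : ‖h‖ ^ 3 < ‖h‖ ^ 2 := by nlinarith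
  have nT1 : ‖T1‖ ≤ 1 := by
    rw [hT1]
    refine le_trans (IsUltrametricDist.norm_add_le_max _ _) (max_le hα.le ?_)
    rw [norm_mul, hβ, one_mul]
    exact nat_le s
  have nT2 : ‖T2‖ ≤ 1 := by
    rw [hT2, norm_mul, hβ, one_mul]
    exact nat_le _
  have a1 : ‖T1 * h‖ ≤ ‖h‖ := by
    rw [norm_mul]
    exact mul_le_of_le_one_left (norm_nonneg _) nT1
  have a2 : ‖T2 * h ^ 2‖ ≤ ‖h‖ ^ 2 := by
    rw [norm_mul, norm_pow]
    exact mul_le_of_le_one_left (by positivity) nT2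
  have a3 : ‖β * R * h ^ 3‖ ≤ ‖h‖ ^ 3 := by
    rw [norm_mul, norm_mul, norm_pow, hβ, one_mul]
    exact mul_le_of_le_one_left (by positivity) hR
  -- the first coefficient
  have b0 : ‖T0‖ < 1 := by
    have e0 : T0 = S - T1 * h - T2 * h ^ 2 - β * R * h ^ 3 := by rw [hSe]; ring
    rw [e0]
    refine sub_lt (sub_lt (sub_lt ?_ ?_) ?_) ?_
    · exact hsum.trans (by nlinarith)
    · exact a1.trans_lt hh
    · exact a2.trans_lt (n21.trans hh)
    · exact a3.trans_lt (n32.trans (n21.trans hh))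
  have c0 : ‖T0‖ < ‖h‖ ^ 3 := (d0 b0).trans_lt (ht3.trans_le t3)
  -- the second coefficient
  have b1 : ‖T1‖ < 1 := by
    have e1 : T1 * h = S - T0 - T2 * h ^ 2 - β * R * h ^ 3 := by rw [hSe]; ring
    have h1 : ‖T1 * h‖ < ‖h‖ := by
      rw [e1]
      refine sub_lt (sub_lt (sub_lt ?_ ?_) ?_) ?_
      · exact (hsum.trans_le t2).trans n21
      · exact c0.trans (n32.trans n21)
      · exact a2.trans_lt n21
      · exact a3.trans_lt (n32.trans n21)
    rw [norm_mul] at h1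
    by_contra hcon
    rw [not_lt] at hcon
    exact absurd (le_mul_of_one_le_left (norm_nonneg h) hcon) (not_le.2 h1)
  have c1 : ‖T1‖ < ‖h‖ ^ 3 := (d1 b1).trans_lt (ht3.trans_le t3)
  -- the third coefficient
  have b2 : ‖T2‖ < 1 := by
    have e2 : T2 * h ^ 2 = S - T0 - T1 * h - β * R * h ^ 3 := by rw [hSe]; ring
    have h2 : ‖T2 * h ^ 2‖ < ‖h‖ ^ 2 := by
      rw [e2]
      refine sub_lt (sub_lt (sub_lt ?_ ?_) ?_) ?_
      · exact hsum.trans_le t2
      · exact c0.trans n32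
      · rw [norm_mul]
        have : ‖T1‖ * ‖h‖ ≤ ‖T1‖ := mul_le_of_le_one_right (norm_nonneg _) hh.le
        exact this.trans_lt (c1.trans n32)
      · exact a3.trans_lt n32
    rw [norm_mul, norm_pow] at h2
    by_contra hcon
    rw [not_lt] at hcon
    exact absurd (le_mul_of_one_le_left (by positivity : (0 : ℝ) ≤ ‖h‖ ^ 2) hcon) (not_le.2 h2)
  -- the contradiction
  have g1 : ‖((s.choose 2 : ℕ) : K)‖ < 1 := by
    rw [hT2, norm_mul, hβ, one_mul] at b2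
    exact b2
  have g2 : (s : K) * ((s : K) - 1) = 2 * ((s.choose 2 : ℕ) : K) := by
    rw [Nat.cast_choose_two]
    ring
  have g3 : ‖(s : K)‖ * ‖(s : K) - 1‖ < 1 := by
    rw [← norm_mul, g2, norm_mul]
    have h2 : ‖(2 : K)‖ ≤ 1 := by
      have := nat_le (K := K) 2
      simpa using this
    exact (mul_le_of_le_one_left (norm_nonneg _) h2).trans_lt g1
  rcases lt_or_ge ‖(s : K)‖ 1 with hs | hs
  · have h1 : ‖α‖ < 1 := by
      have e3 : α = T1 - β * s := by rw [hT1]; ring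
      rw [e3]
      refine sub_lt b1 ?_
      rw [norm_mul, hβ, one_mul]
      exact hs
    exact absurd hα h1.ne
  · have h1 : ‖(s : K) - 1‖ < 1 := by
      by_contra hcon
      rw [not_lt] at hcon
      exact absurd g3 (not_lt.2 (one_le_mul_of_one_le_of_one_le hs hcon))
    have h2 : ‖(1 : K)‖ < 1 := by
      have e3 : (1 : K) = (T1 - β * (s - 1)) - T0 := by rw [hT1, hT0]; ring
      rw [e3]
      refine sub_lt (sub_lt b1 ?_) b0
      rw [norm_mul, hβ, one_mul]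
      exact h1
    rw [norm_one] at h2
    exact lt_irrefl _ h2

/-- one of the `p`-parts is a power of the other one -/
theorem main (urr : URRStmt) (urt : URTStmt) (wwn : WWNStmt) (thb : THBStmt) {p : ℕ}
    (hp : p.Prime) (h5 : 5 ≤ p) (hK : Ext p K) {a b u v η : K} {k s : ℕ} (ha : Uu p a)
    (hb : Uu p b) (hu : Tame p u) (hv : Tame p v) (hk : 1 ≤ k) (hη : IsPrimitiveRoot η (p ^ k))
    (h : ‖a * (u * η) + b * (v * η ^ s) - 1‖ < th p ^ 2) : False := by
  obtain ⟨-, t0, t1, t3, -⟩ := thb p hp h5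
  obtain ⟨-, w1, w2, -⟩ := wwn p hp (by omega) K hK k η hk hη
  obtain ⟨r1, -, r3, r4, -⟩ := urr p hp K hK
  obtain ⟨q1, -⟩ := urt p hp K hK
  have hu' := q1 u hu
  have hv' := q1 v hv
  have hα : Ur p (a * u) := (r1 a u ha.1 hu'.1).2.1
  have hβ : Ur p (b * v) := (r1 b v hb.1 hv'.1).2.1
  have n1 : ‖a * u‖ = 1 := by rw [norm_mul, ha.2, hu'.2, one_mul]
  have n2 : ‖b * v‖ = 1 := by rw [norm_mul, hb.2, hv'.2, one_mul]
  have m0 : Ur p (a * u + b * v - 1) := by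
    have h1 := r3 1
    rw [Int.cast_one] at h1
    exact (r1 _ _ (r1 _ _ hα hβ).1 h1).2.2.2
  have m1 : Ur p (a * u + b * v * s) := by
    have h1 := r3 (s : ℤ)
    rw [Int.cast_natCast] at h1
    exact (r1 _ _ hα (r1 _ _ hβ h1).2.1).1
  refine key hp.pos (α := a * u) (β := b * v) (h := η - 1) (s := s) t0 t1 t3 w1 w2 n1 n2
    (r4 _ m0) (r4 _ m1) ?_
  have e : a * u * (1 + (η - 1)) + b * v * (1 + (η - 1)) ^ s - 1 =
      a * (u * η) + b * (v * η ^ s) - 1 := by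
    rw [add_sub_cancel]
    ring
  rw [e]
  exact h

theorem lvv (spl : SPLStmt) (urr : URRStmt) (urt : URTStmt) (wwn : WWNStmt) (thb : THBStmt) :
    LVVStmt := by
  intro p hp h5 K _ _ _ hK a b x y ha hb hx hy h
  obtain ⟨u, w, rfl, hu, hw⟩ := spl p hp K x hx
  obtain ⟨v, z, rfl, hv, hz⟩ := spl p hp K y hy
  -- a power of `w`
  have case1 : ∀ k s : ℕ, 1 ≤ k → IsPrimitiveRoot w (p ^ k) → z = w ^ s → False := by
    intro k s hk hw' hs
    apply main urr urt wwn thb hp h5 hK ha hb hu hv hk hw' (s := s)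
    rwa [← hs]
  have case2 : ∀ k s : ℕ, 1 ≤ k → IsPrimitiveRoot z (p ^ k) → w = z ^ s → False := by
    intro k s hk hz' hs
    apply main urr urt wwn thb hp h5 hK hb ha hv hu hk hz' (s := s)
    rw [← hs, add_comm (b * (v * z))]
    exact h
  have hpos : ∀ k : ℕ, NeZero (p ^ k) := fun k => ⟨pow_ne_zero k hp.ne_zero⟩
  rcases hw with rfl | ⟨k, hk, hw⟩
  · rcases hz with rfl | ⟨l, hl, hz⟩
    · rw [mul_one, mul_one]
      exact ⟨hu, hv⟩
    · exact (case2 l 0 hl hz (by rw [pow_zero])).elim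
  · rcases hz with rfl | ⟨l, hl, hz⟩
    · exact (case1 k 0 hk hw (by rw [pow_zero])).elim
    · rcases le_total l k with hlk | hlk
      · have := hpos k
        have h1 : z ^ p ^ k = 1 := by
          obtain ⟨c, hc⟩ := pow_dvd_pow p hlk
          rw [hc, pow_mul, hz.pow_eq_one, one_pow]
        obtain ⟨i, -, hi⟩ := hw.eq_pow_of_pow_eq_one h1
        exact (case1 k i hk hw hi.symm).elim
      · have := hpos l
        have h1 : w ^ p ^ l = 1 := by
          obtain ⟨c, hc⟩ := pow_dvd_pow p hlk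
          rw [hc, pow_mul, hw.pow_eq_one, one_pow]
        obtain ⟨i, -, hi⟩ := hz.eq_pow_of_pow_eq_one h1
        exact (case2 l i hl hz hi.symm).elim

end Pool.Agent.ZP3.H83
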